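import Pool.Agent.R473.FP.FS
import Pool.Agent.R473.FP.Pieces
import Pool.Agent.TH768.DG.Exp

/-!
# Finite-state predictors which read the digits of several numbers at the same time

An adaptation of `Pool.Agent.R473.FP.FS`.
-/

set_option autoImplicit false

namespace Pool.Agent.V5helper64.FP

open Finset Polynomial
open Pool.Agent.H831R3.LC (W dig A dig_eq)
open Pool.Agent.W47.JL
open Pool.Agent.R473.FP (close)

/-- the state of the automaton with transitions `δ` and initial state `q₀` after it has read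
`d 1, …, d n` -/
def run {β : Type} {Q : ℕ} (δ : Fin Q → β → Fin Q) (q₀ : Fin Q) (d : ℕ → β) : ℕ → Fin Q
  | 0 => q₀
  | n + 1 => δ (run δ q₀ d n) (d (n + 1))

open scoped Classical in
/-- the number of `n < N` such that the automaton, having read `d 1, …, d n`, does not predict
`d (n + 1)` -/
noncomputable def errors {β : Type} {Q : ℕ} (δ : Fin Q → β → Fin Q) (q₀ : Fin Q) (out : Fin Q → β)
    (d : ℕ → β) (N : ℕ) : ℕ :=
  ((range N).filter fun n => out (run δ q₀ d n) ≠ d (n + 1)).card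

/-- without errors the automaton is autonomous -/
lemma run_eq {β : Type} {Q : ℕ} (δ : Fin Q → β → Fin Q) (q₀ : Fin Q) (out : Fin Q → β) (d : ℕ → β)
    (u v : ℕ) (hno : ∀ i, u ≤ i → i < v → out (run δ q₀ d i) = d (i + 1)) (i : ℕ) (hi : u + i ≤ v) :
    run δ q₀ d (u + i) = (fun σ => δ σ (out σ))^[i] (run δ q₀ d u) := by
  induction i with
  | zero => rfl
  | succ i ih =>
    rw [Function.iterate_succ_apply', ← ih (by omega), ← add_assoc]
    change δ _ (d (u + i + 1)) = _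
    rw [hno (u + i) (by omega) (by omega)]

/-- a stretch without errors is periodic after at most `Q` steps -/
lemma periodic_stretch {β : Type} {Q : ℕ} (δ : Fin Q → β → Fin Q) (q₀ : Fin Q) (out : Fin Q → β)
    (d : ℕ → β) (u v : ℕ) (hno : ∀ i, u ≤ i → i < v → out (run δ q₀ d i) = d (i + 1)) :
    ∃ a p : ℕ, 1 ≤ p ∧ a + p ≤ Q ∧ ∀ i, a ≤ i → u + i + p < v → d (u + i + p + 1) = d (u + i + 1) := by
  obtain ⟨f, hf⟩ : ∃ f : Fin Q → Fin Q, f = fun σ => δ σ (out σ) := ⟨_, rfl⟩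
  obtain ⟨i, j, hij, hfij⟩ := Fintype.exists_ne_map_eq_of_card_lt
    (fun i : Fin (Q + 1) => f^[(i : ℕ)] (run δ q₀ d u)) (by simp)
  wlog hlt : (i : ℕ) < j with H
  · exact H δ q₀ out d u v hno f hf j i hij.symm hfij.symm (by
      have : (i : ℕ) ≠ j := fun h => hij (Fin.ext h)
      omega)
  obtain ⟨p, hp⟩ : ∃ p : ℕ, (j : ℕ) = i + p := ⟨j - i, by omega⟩
  have hfij' : f^[(i : ℕ)] (run δ q₀ d u) = f^[(j : ℕ)] (run δ q₀ d u) := hfij
  refine ⟨i, p, by omega, by omega, fun k hk hkv => ?_⟩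
  obtain ⟨l, hl⟩ : ∃ l : ℕ, k = i + l := ⟨k - i, by omega⟩
  have h1 := run_eq δ q₀ out d u v hno k (by omega)
  have h2 := run_eq δ q₀ out d u v hno (k + p) (by omega)
  rw [← hf] at h1 h2
  have h3 : f^[k + p] (run δ q₀ d u) = f^[k] (run δ q₀ d u) := by
    rw [hl, show (i : ℕ) + l + p = l + j by omega, show (i : ℕ) + l = l + i by omega,
      Function.iterate_add_apply, Function.iterate_add_apply, hfij']
  have h4 : run δ q₀ d (u + (k + p)) = run δ q₀ d (u + k) := by rw [h2, h3, ← h1]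
  have h5 := hno (u + (k + p)) (by omega) (by omega)
  have h6 := hno (u + k) (by omega) (by omega)
  rw [h4, h6] at h5
  rw [show u + k + p + 1 = u + (k + p) + 1 by ring]
  exact h5.symm

/-- the length of a stretch without errors -/
theorem gap_fs {J : ℕ} (x : Fin J → ℝ) (μ c0 α₀ : ℝ) (hμ : 1 < μ) (hc0 : 0 < c0) (hA0 : 0 ≤ α₀)
    (hM : Meas J x μ c0 α₀)
    (b : ℕ) (hb : 2 ≤ b) (Q u v : ℕ) (a p : ℕ) (hp : 1 ≤ p) (hap : a + p ≤ Q)
    (hper : ∀ j i, a ≤ i → u + i + p < v → dig (x j) b (u + i + p + 1) = dig (x j) b (u + i + 1)) :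
    (v : ℝ) ≤ μ * (u + Q) + (3 / 2 * α₀) * Real.log (1 + (u + Q)) +
      (α₀ + 3 / 2 * |Real.log c0|) := by
  have hbR : (2 : ℝ) ≤ b := by exact_mod_cast hb
  have hb0 : (0 : ℝ) < b := by linarith
  have hu0 : (0 : ℝ) ≤ u := Nat.cast_nonneg u
  have hQ0 : (0 : ℝ) ≤ Q := Nat.cast_nonneg Q
  obtain ⟨T, hT⟩ : ∃ T : ℝ, T = u + Q := ⟨_, rfl⟩
  rw [← hT]
  have hT0 : 0 ≤ T := by rw [hT]; linarith
  have hlT0 : 0 ≤ Real.log (1 + T) := Real.log_nonneg (by linarith)
  have hlb : 0.69 ≤ Real.log b := by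
    have h1 := Real.log_two_gt_d9
    have h2 := Real.log_le_log (by norm_num : (0 : ℝ) < 2) hbR
    linarith
  have hlb0 : 0 < Real.log b := by linarith
  have hc00 := abs_nonneg (Real.log c0)
  rcases le_or_gt v (u + (a + p)) with hv | hv
  · have h1 : (v : ℝ) ≤ T := by
      have : (v : ℝ) ≤ u + Q := by exact_mod_cast (by omega : v ≤ u + Q)
      rw [hT]; linarith
    have h2 : T ≤ μ * T := by nlinarith
    have h3 : 0 ≤ (3 / 2 * α₀) * Real.log (1 + T) := by positivity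
    linarith
  obtain ⟨w, hw⟩ : ∃ w : ℕ, v = u + (a + p) + w := ⟨v - (u + (a + p)), by omega⟩
  obtain ⟨q, hq⟩ : ∃ q : ℕ, q = b ^ (u + a + p) - b ^ (u + a) := ⟨_, rfl⟩
  have hlt : b ^ (u + a) < b ^ (u + a + p) := Nat.pow_lt_pow_right (by omega) (by omega)
  have hq1 : 1 ≤ q := by omega
  have hqR : (q : ℝ) = (b : ℝ) ^ (u + a + p) - (b : ℝ) ^ (u + a) := by
    rw [hq, Nat.cast_sub hlt.le]; push_cast; ring
  have hq1R : (1 : ℝ) ≤ q := by exact_mod_cast hq1
  have hqle : (q : ℝ) ≤ (b : ℝ) ^ (u + Q) := by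
    have h1 : (b : ℝ) ^ (u + a + p) ≤ (b : ℝ) ^ (u + Q) :=
      pow_le_pow_right₀ (by linarith) (by omega)
    have h2 : (0 : ℝ) ≤ (b : ℝ) ^ (u + a) := by positivity
    linarith
  obtain ⟨j, hj⟩ := hM q hq1 (fun j => A (x j) b (u + a + p) - A (x j) b (u + a))
  have hcl := close (x j) b (by omega) (u + a + p) (u + a) w (fun i hi => by
    have := hper j (a + i) (by omega) (by omega)
    rw [show u + a + p + i + 1 = u + (a + i) + p + 1 by ring,
      show u + a + i + 1 = u + (a + i) + 1 by ring]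
    exact this)
  have e : (q : ℝ) * x j - ((A (x j) b (u + a + p) - A (x j) b (u + a) : ℤ) : ℝ) =
      x j * (b : ℝ) ^ (u + a + p) - x j * (b : ℝ) ^ (u + a) -
        ((A (x j) b (u + a + p) - A (x j) b (u + a) : ℤ) : ℝ) := by rw [hqR]; ring
  rw [e] at hj
  have hlogq : Real.log q ≤ T * Real.log b := by
    have h1 := Real.log_le_log (by linarith) hqle
    rw [Real.log_pow] at h1
    rw [hT]
    exact_mod_cast h1
  have hlq0 : 0 ≤ Real.log q := Real.log_nonneg hq1R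
  have h2 : c0 * (b : ℝ) ^ w ≤ (q : ℝ) ^ (μ - 1) * (1 + Real.log q) ^ α₀ := by
    calc c0 * (b : ℝ) ^ w ≤ ((q : ℝ) ^ (μ - 1) * (1 + Real.log q) ^ α₀ *
          |x j * (b : ℝ) ^ (u + a + p) - x j * (b : ℝ) ^ (u + a) -
            ((A (x j) b (u + a + p) - A (x j) b (u + a) : ℤ) : ℝ)|) * (b : ℝ) ^ w :=
          mul_le_mul_of_nonneg_right hj (by positivity)
      _ = (q : ℝ) ^ (μ - 1) * (1 + Real.log q) ^ α₀ *
          (|x j * (b : ℝ) ^ (u + a + p) - x j * (b : ℝ) ^ (u + a) -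
            ((A (x j) b (u + a + p) - A (x j) b (u + a) : ℤ) : ℝ)| * (b : ℝ) ^ w) := by ring
      _ ≤ (q : ℝ) ^ (μ - 1) * (1 + Real.log q) ^ α₀ * 1 :=
          mul_le_mul_of_nonneg_left hcl (by positivity)
      _ = _ := mul_one _
  have h3 := Real.log_le_log (by positivity) h2
  rw [Real.log_mul hc0.ne' (by positivity), Real.log_pow,
    Real.log_mul (by positivity) (by positivity),
    Real.log_rpow (by linarith), Real.log_rpow (by linarith)] at h3
  have h4 : Real.log (1 + Real.log q) ≤ Real.log (1 + T) + Real.log b := by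
    have h5 : 1 + Real.log q ≤ (1 + T) * (1 + Real.log b) := by nlinarith
    have h6 := Real.log_le_log (by linarith) h5
    rw [Real.log_mul (by positivity) (by positivity)] at h6
    have h7 := Real.log_le_sub_one_of_pos (by linarith : 0 < 1 + Real.log b)
    linarith
  have h5 := mul_le_mul_of_nonneg_left h4 hA0
  have h6 := mul_le_mul_of_nonneg_left hlogq (by linarith : 0 ≤ μ - 1)
  have h7 : -|Real.log c0| ≤ Real.log c0 := neg_abs_le _
  have h9 : (v : ℝ) ≤ T + w := by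
    rw [hT]
    have : (v : ℝ) ≤ ((u + Q + w : ℕ) : ℝ) := by exact_mod_cast (by omega : v ≤ u + Q + w)
    push_cast at this
    exact this
  have h10 : Real.log (1 + T) ≤ 3 / 2 * Real.log (1 + T) * Real.log b := by nlinarith
  have h11 : |Real.log c0| ≤ 3 / 2 * |Real.log c0| * Real.log b := by nlinarith
  have h12 := mul_le_mul_of_nonneg_left h10 hA0
  have h14 := mul_le_mul_of_nonneg_right h9 hlb0.le
  have h13 : (v : ℝ) * Real.log b ≤ (μ * T + (3 / 2 * α₀) * Real.log (1 + T) +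
      (α₀ + 3 / 2 * |Real.log c0|)) * Real.log b := by
    nlinarith
  exact le_of_mul_le_mul_right h13 hlb0

/-- **Finite-state predictors** of several sequences of digits which are read in parallel; the alphabet is identified
with the vectors of digits by the injective map `f`. -/
theorem predictors {J : ℕ} (x : Fin J → ℝ) (μ c0 α₀ : ℝ) (hμ : 1 < μ) (hc0 : 0 < c0) (hA0 : 0 ≤ α₀)
    (hM : Meas J x μ c0 α₀) :
    ∃ C : ℝ, 0 ≤ C ∧ ∀ b : ℕ, 2 ≤ b → ∀ (β : Type) (f : β → Fin J → ℤ) (d : ℕ → β),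
      (∀ i j, f (d i) j = dig (x j) b i) → ∀ (Q : ℕ) (δ : Fin Q → β → Fin Q) (q₀ : Fin Q)
      (out : Fin Q → β) (N : ℕ),
      (N : ℝ) ≤ (∑ i ∈ range (errors δ q₀ out d N + 1), μ ^ (i + 1)) *
        (Q + (3 / 2 * α₀) / (μ - 1) * Real.log (1 + Q) + C) := by
  obtain ⟨α, hα⟩ : ∃ α : ℝ, α = 3 / 2 * α₀ := ⟨_, rfl⟩
  obtain ⟨β', hβ⟩ : ∃ β : ℝ, β = α₀ + 3 / 2 * |Real.log c0| := ⟨_, rfl⟩
  obtain ⟨B, hB⟩ : ∃ B : ℝ, B = α / (μ - 1) := ⟨_, rfl⟩
  have hα0 : 0 ≤ α := by rw [hα]; positivity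
  have hβ0 : 0 ≤ β' := by rw [hβ]; positivity
  have hμ1 : 0 < μ - 1 := by linarith
  have hB0 : 0 ≤ B := by rw [hB]; positivity
  have hB1 : α ≤ B * (μ - 1) := by
    rw [hB, div_mul_cancel₀ _ hμ1.ne']
  have hlog : 0 ≤ Real.log (2 + μ + α + β') := Real.log_nonneg (by linarith)
  refine ⟨β' + 1 + B * Real.log (2 + μ + α + β') + β', by positivity, ?_⟩
  intro b hb β f d hd Q δ q₀ out N
  classical
  have hmain := rec_final μ α β' (Q : ℝ) B hμ hα0 hβ0 (Nat.cast_nonneg Q) hB1 hB0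
    ((range N).filter fun n => out (run δ q₀ d n) ≠ d (n + 1)) N
    (errors δ q₀ out d N) (le_of_eq (by unfold errors; congr)) (fun u v huv hvN hE => by
      have hno : ∀ i, u ≤ i → i < v → out (run δ q₀ d i) = d (i + 1) := by
        intro i hui hiv
        by_contra hne
        rcases hE i (Finset.mem_filter.2 ⟨Finset.mem_range.2 (by omega), hne⟩) with h | h <;> omega
      obtain ⟨a, p, hp, hap, hper⟩ := periodic_stretch δ q₀ out d u v hno
      have h := gap_fs x μ c0 α₀ hμ hc0 hA0 hM b hb Q u v a p hp hap (fun j i h1 h2 => by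
        rw [← hd, ← hd, hper i h1 h2])
      rw [← hα, ← hβ] at h
      exact h)
  refine hmain.trans (le_of_eq ?_)
  unfold M2
  rw [← hα, ← hB]
  ring

/-- the powers of `e` -/
theorem meas_e {n : ℕ} (hn : 1 ≤ n) (κ : Fin n → ℤ) (hκ : Function.Injective κ) (h0 : ∀ j, κ j ≠ 0)
    (μ : ℝ) (hμ : 1 + 1 / (n : ℝ) < μ) :
    ∃ c : ℝ, 0 < c ∧ Meas n (fun j => Real.exp (κ j)) μ c 0 := by
  have hn0 : (0 : ℝ) < n := by exact_mod_cast hn
  have h1 : (n : ℝ) + 1 < μ * n := by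
    have h2 := mul_lt_mul_of_pos_right hμ hn0
    have h3 : (1 + 1 / (n : ℝ)) * n = n + 1 := by field_simp
    linarith
  obtain ⟨c, hc, hM⟩ := Pool.Agent.TH768.DG.normal_exp κ hκ h0 (μ * n - n - 1) (by linarith)
  obtain ⟨c', hc', h⟩ := Pool.Agent.TH768.DG.transfer hn _ (n + (μ * n - n - 1)) c (by linarith) hc hM
  have e1 : ((n : ℝ) + (μ * n - n - 1) + 1) / n = μ := by field_simp; ring
  rw [e1] at h
  exact ⟨c', hc', h⟩

end Pool.Agent.V5helper64.FP
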